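import Pool.Agent.H37.S3.Stmts

/-!
# Degree control on a leaf: choice of the polynomial on a bad cube (row SML of the board ks3)
-/

set_option autoImplicit false

namespace Pool.KS3

open Finset Real
open Pool.KAL

namespace SML

open MvPolynomial

/-! ### The supremum on a cube -/

theorem cs_nonneg {n : ℕ} (a : Fin n → ℝ) (s : ℝ) (R : MvPolynomial (Fin n) ℝ) : 0 ≤ cs a s R := by
  unfold cs
  refine Real.sSup_nonneg ?_
  rintro _ ⟨y, _, rfl⟩
  exact abs_nonneg _

theorem near_of_cube {n : ℕ} {a : Fin n → ℝ} {s : ℝ} {y : Fin n → ℝ} (hy : y ∈ cube a s) :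
    ∀ i, |y i - a i| ≤ s := by
  intro i
  have h := hy i
  rw [abs_le]
  constructor <;> linarith [h.1, h.2]

theorem le_cs {n : ℕ} {a : Fin n → ℝ} {s : ℝ} (hs : 0 ≤ s) (R : MvPolynomial (Fin n) ℝ)
    {y : Fin n → ℝ} (hy : y ∈ cube a s) : |eval y R| ≤ cs a s R := by
  unfold cs
  refine le_csSup ⟨Psi R s a, ?_⟩ ⟨y, hy, rfl⟩
  rintro _ ⟨y', hy', rfl⟩
  exact abs_eval_le_Psi_of_near R s hs a y' (near_of_cube hy')

theorem cs_le {n : ℕ} {a : Fin n → ℝ} {s : ℝ} (R : MvPolynomial (Fin n) ℝ) {B : ℝ} (hB : 0 ≤ B)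
    (h : ∀ y ∈ cube a s, |eval y R| ≤ B) : cs a s R ≤ B := by
  unfold cs
  refine Real.sSup_le ?_ hB
  rintro _ ⟨y, hy, rfl⟩
  exact h y hy

theorem cs_C_mul_le {n : ℕ} (a : Fin n → ℝ) {s : ℝ} (hs : 0 ≤ s) (r : ℝ)
    (R : MvPolynomial (Fin n) ℝ) : cs a s (C r * R) ≤ |r| * cs a s R := by
  refine cs_le _ (mul_nonneg (abs_nonneg _) (cs_nonneg _ _ _)) ?_
  intro y hy
  rw [map_mul, eval_C, abs_mul]
  exact mul_le_mul_of_nonneg_left (le_cs hs R hy) (abs_nonneg _)

theorem cs_C_mul {n : ℕ} (a : Fin n → ℝ) {s : ℝ} (hs : 0 ≤ s) {r : ℝ} (hr : r ≠ 0)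
    (R : MvPolynomial (Fin n) ℝ) : cs a s (C r * R) = |r| * cs a s R := by
  refine le_antisymm (cs_C_mul_le a hs r R) ?_
  have h1 := cs_C_mul_le a hs r⁻¹ (C r * R)
  rw [← mul_assoc, ← C_mul, inv_mul_cancel₀ hr, C_1, one_mul, abs_inv] at h1
  have hpos : 0 < |r| := abs_pos.2 hr
  rw [inv_mul_eq_div, le_div_iff₀ hpos] at h1
  linarith

/-! ### The graph -/

theorem eval_gr {n : ℕ} (G : MvPolynomial (Fin n) ℝ) (Q : MvPolynomial (Option (Fin n)) ℝ)
    (y : Fin n → ℝ) : eval y (gr G Q) = eval (gpt G y) Q := by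
  unfold gr
  rw [← coe_aeval_eq_eval, ← coe_aeval_eq_eval, RingHom.coe_coe, RingHom.coe_coe, aeval_bind₁]
  have e : (fun i : Option (Fin n) => aeval y (i.elim G X)) = gpt G y := by
    funext o
    cases o with
    | none =>
      show aeval y G = eval y G
      rw [← coe_aeval_eq_eval]
      rfl
    | some i =>
      show aeval y (X i) = y i
      rw [aeval_X]
  rw [e]

theorem gr_C_mul {n : ℕ} (G : MvPolynomial (Fin n) ℝ) (r : ℝ)
    (Q : MvPolynomial (Option (Fin n)) ℝ) : gr G (C r * Q) = C r * gr G Q := by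
  unfold gr
  rw [map_mul, bind₁_C_right]

theorem totalDegree_bind_le {σ τ : Type*} (f : σ → MvPolynomial τ ℝ) (d : ℕ)
    (hf : ∀ i, (f i).totalDegree ≤ d) (Q : MvPolynomial σ ℝ) :
    (bind₁ f Q).totalDegree ≤ d * Q.totalDegree := by
  classical
  have h1 : bind₁ f Q = ∑ α ∈ Q.support, C (coeff α Q) * ∏ i ∈ α.support, f i ^ α i := by
    show aeval f Q = _
    rw [aeval_def, eval₂_eq]
    rfl
  rw [h1]
  refine totalDegree_finsetSum_le ?_
  intro α hα
  refine (totalDegree_mul _ _).trans ?_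
  rw [totalDegree_C, zero_add]
  refine (totalDegree_finsetProd _ _).trans ?_
  have h2 : ∀ i ∈ α.support, (f i ^ α i).totalDegree ≤ d * α i := by
    intro i _
    refine (totalDegree_pow _ _).trans ?_
    rw [mul_comm]
    exact Nat.mul_le_mul_right _ (hf i)
  refine (Finset.sum_le_sum h2).trans ?_
  rw [← Finset.mul_sum]
  exact Nat.mul_le_mul_left _ (le_totalDegree hα)

theorem totalDegree_gr_le {n : ℕ} (G : MvPolynomial (Fin n) ℝ) (k₀ D : ℕ)
    (hG : G.totalDegree ≤ k₀) (Q : MvPolynomial (Option (Fin n)) ℝ) (hQ : Q.totalDegree ≤ D) :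
    (gr G Q).totalDegree ≤ (k₀ + 1) * D := by
  unfold gr
  refine (totalDegree_bind_le _ (k₀ + 1) ?_ Q).trans (Nat.mul_le_mul_left _ hQ)
  intro o
  cases o with
  | none => exact hG.trans (Nat.le_succ _)
  | some i =>
    show (X i : MvPolynomial (Fin n) ℝ).totalDegree ≤ _
    rw [totalDegree_X]
    omega

/-- The chain rule on the graph. -/
theorem pderiv_gr {n : ℕ} (G : MvPolynomial (Fin n) ℝ) (i : Fin n)
    (Q : MvPolynomial (Option (Fin n)) ℝ) :
    pderiv i (gr G Q) = gr G (pderiv (some i) Q) + gr G (pderiv none Q) * pderiv i G := by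
  classical
  unfold gr
  induction Q using MvPolynomial.induction_on with
  | C r => simp
  | add p q hp hq =>
    rw [map_add, map_add, hp, hq, map_add, map_add, map_add, map_add]
    ring
  | mul_X p o hp =>
    rw [map_mul, Derivation.leibniz, hp, bind₁_X_right, Derivation.leibniz, Derivation.leibniz]
    cases o with
    | none =>
      have e1 : pderiv (some i) (X none : MvPolynomial (Option (Fin n)) ℝ) = 0 :=
        pderiv_X_of_ne (by simp)
      rw [e1, pderiv_X_self]
      simp only [Option.elim_none, smul_eq_mul, map_add, map_mul, bind₁_X_right, map_one,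
        map_zero]
      ring
    | some k =>
      have e1 : pderiv none (X (some k) : MvPolynomial (Option (Fin n)) ℝ) = 0 :=
        pderiv_X_of_ne (by simp)
      rw [e1]
      by_cases hik : k = i
      · subst hik
        rw [pderiv_X_self]
        simp only [Option.elim_some, smul_eq_mul, map_add, map_mul, bind₁_X_right, map_one,
          map_zero, pderiv_X_self]
        ring
      · have e2 : pderiv (some i) (X (some k) : MvPolynomial (Option (Fin n)) ℝ) = 0 :=
          pderiv_X_of_ne (by simpa using hik)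
        rw [e2]
        simp only [Option.elim_some, smul_eq_mul, map_add, map_mul, bind₁_X_right,
          map_zero, pderiv_X_of_ne hik]
        ring

/-! ### One variable at a time: the coefficients are controlled by the derivatives -/

theorem coefSum_le_pderiv {σ : Type*} [Fintype σ] (R : MvPolynomial σ ℝ) :
    coefSum R ≤ |eval (fun _ => 0) R| + ∑ o, coefSum (pderiv o R) := by
  classical
  have h0 : coefSum R ≤ |coeff 0 R| + ∑ α ∈ R.support.erase 0, |coeff α R| := by
    by_cases h : (0 : σ →₀ ℕ) ∈ R.support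
    · unfold coefSum
      rw [← Finset.add_sum_erase _ _ h]
    · unfold coefSum
      rw [Finset.erase_eq_of_notMem h]
      linarith [abs_nonneg (coeff 0 R)]
  have h1 : eval (fun _ => (0 : ℝ)) R = coeff 0 R := by
    have := constantCoeff_eq (R := ℝ) (σ := σ)
    rw [← this]
    have e : (eval (fun _ : σ => (0 : ℝ)) : MvPolynomial σ ℝ →+* ℝ) = constantCoeff := by
      ext i <;> simp
    rw [e]
  rw [h1]
  refine h0.trans (add_le_add le_rfl ?_)
  -- every exponent is moved down in one of its variables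
  have hex : ∀ α : σ →₀ ℕ, α ≠ 0 → ∃ o, 0 < α o := by
    intro α hα
    by_contra hcon
    push Not at hcon
    apply hα
    ext o
    have := hcon o
    simp only [Finsupp.coe_zero, Pi.zero_apply]
    omega
  have h2 : ∀ α ∈ R.support.erase 0, |coeff α R| ≤
      ∑ o, if 0 < α o then |coeff (α - Finsupp.single o 1) (pderiv o R)| else 0 := by
    intro α hα
    obtain ⟨o, ho⟩ := hex α (Finset.ne_of_mem_erase hα)
    have h3 : (if 0 < α o then |coeff (α - Finsupp.single o 1) (pderiv o R)| else 0) ≤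
        ∑ o, if 0 < α o then |coeff (α - Finsupp.single o 1) (pderiv o R)| else 0 := by
      refine Finset.single_le_sum (f := fun o => if 0 < α o then
        |coeff (α - Finsupp.single o 1) (pderiv o R)| else 0) ?_ (Finset.mem_univ o)
      intro o' _
      show 0 ≤ if 0 < α o' then |coeff (α - Finsupp.single o' 1) (pderiv o' R)| else 0
      split_ifs
      · exact abs_nonneg _
      · exact le_rfl
    refine le_trans ?_ h3
    rw [if_pos ho, coeff_pderiv]
    have e : α - Finsupp.single o 1 + Finsupp.single o 1 = α := by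
      refine tsub_add_cancel_of_le ?_
      rw [Finsupp.single_le_iff]
      exact ho
    rw [e, abs_mul]
    have h4 : (1 : ℝ) ≤ |(((α - Finsupp.single o 1 : σ →₀ ℕ) o : ℕ) : ℝ) + 1| := by
      rw [abs_of_nonneg (by positivity)]
      have : (0 : ℝ) ≤ (((α - Finsupp.single o 1 : σ →₀ ℕ) o : ℕ) : ℝ) := Nat.cast_nonneg _
      linarith
    exact le_mul_of_one_le_right (abs_nonneg _) h4
  refine (Finset.sum_le_sum h2).trans ?_
  rw [Finset.sum_comm]
  refine Finset.sum_le_sum ?_
  intro o _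
  rw [← Finset.sum_filter]
  set S := {α ∈ R.support.erase 0 | 0 < α o} with hS
  have hinj : Set.InjOn (fun α : σ →₀ ℕ => α - Finsupp.single o 1) S := by
    intro α hα β hβ hab
    have hα' : 0 < α o := (Finset.mem_filter.1 hα).2
    have hβ' : 0 < β o := (Finset.mem_filter.1 hβ).2
    have eα : α - Finsupp.single o 1 + Finsupp.single o 1 = α := by
      refine tsub_add_cancel_of_le ?_
      rw [Finsupp.single_le_iff]
      exact hα'
    have eβ : β - Finsupp.single o 1 + Finsupp.single o 1 = β := by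
      refine tsub_add_cancel_of_le ?_
      rw [Finsupp.single_le_iff]
      exact hβ'
    have hab' : α - Finsupp.single o 1 = β - Finsupp.single o 1 := hab
    rw [← eα, hab', eβ]
  calc ∑ α ∈ S, |coeff (α - Finsupp.single o 1) (pderiv o R)|
      = ∑ γ ∈ S.image (fun α : σ →₀ ℕ => α - Finsupp.single o 1), |coeff γ (pderiv o R)| := by
        rw [Finset.sum_image hinj]
    _ ≤ coefSum (pderiv o R) := coefSum_le_of_subset _ _

theorem Psi_le_pderiv {σ : Type*} [Fintype σ] (P : MvPolynomial σ ℝ) {h : ℝ} (hh : 0 ≤ h)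
    (x : σ → ℝ) : Psi P h x ≤ |eval x P| + h * ∑ o, Psi (pderiv o P) h x := by
  have h1 := coefSum_le_pderiv (shf P h x)
  rw [eval_shf] at h1
  have e : (fun i => x i + h * (0 : ℝ)) = x := by
    funext i
    ring
  rw [e] at h1
  refine h1.trans (add_le_add le_rfl ?_)
  rw [Finset.mul_sum]
  refine Finset.sum_le_sum ?_
  intro o _
  rw [pderiv_shf, coefSum_C_mul, abs_of_nonneg hh]
  exact le_rfl

theorem totalDegree_pderiv_le {σ : Type*} (o : σ) (Q : MvPolynomial σ ℝ) (d : ℕ)
    (hQ : Q.totalDegree ≤ d + 1) : (pderiv o Q).totalDegree ≤ d := by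
  classical
  unfold totalDegree
  refine Finset.sup_le ?_
  intro m hm
  rw [mem_support_iff, coeff_pderiv] at hm
  have h1 : m + Finsupp.single o 1 ∈ Q.support := by
    rw [mem_support_iff]
    exact left_ne_zero_of_mul hm
  have h2 := le_totalDegree h1
  have h3 : ((m + Finsupp.single o 1).sum fun _ e => e) = (m.sum fun _ e => e) + 1 := by
    rw [Finsupp.sum_add_index' (fun _ => rfl) (fun _ _ _ => rfl), Finsupp.sum_single_index rfl]
  omega

/-! ### The recursion -/

theorem Psi_le_norm {n : ℕ} (G : MvPolynomial (Fin n) ℝ) (a : Fin n → ℝ) {s h A B : ℝ}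
    (hs : 0 ≤ s) (hh : 0 ≤ h) (hB0 : 0 ≤ B) (hAB : h * A ≤ B) (D : ℕ)
    (hA : ∀ Q : MvPolynomial (Option (Fin n)) ℝ, Q.totalDegree ≤ D → ∀ o,
      cs a s (gr G (pderiv o Q)) ≤ A * cs a s (gr G Q)) :
    ∀ d, d ≤ D → ∀ Q : MvPolynomial (Option (Fin n)) ℝ, Q.totalDegree ≤ d → ∀ y ∈ cube a s,
      Psi Q h (gpt G y) ≤ (1 + (n + 1) * B) ^ d * cs a s (gr G Q) := by
  intro d
  induction d with
  | zero =>
    intro _ Q hQ y hy
    have hQ0 : Q.totalDegree = 0 := by omega
    rw [totalDegree_eq_zero_iff_eq_C] at hQ0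
    have h1 : |eval y (gr G Q)| ≤ cs a s (gr G Q) := le_cs hs _ hy
    rw [eval_gr] at h1
    rw [pow_zero, one_mul]
    refine le_trans (le_of_eq ?_) h1
    rw [hQ0]
    unfold Psi shf
    rw [aeval_C, eval_C]
    exact coefSum_C _
  | succ d ih =>
    intro hd Q hQ y hy
    have h1 : |eval y (gr G Q)| ≤ cs a s (gr G Q) := le_cs hs _ hy
    rw [eval_gr] at h1
    have hx : 0 ≤ (n + 1) * B := by positivity
    have hp : 0 ≤ (1 + ((n : ℝ) + 1) * B) ^ d := by positivity
    have hN := cs_nonneg a s (gr G Q)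
    have h2 : ∀ o : Option (Fin n), h * Psi (pderiv o Q) h (gpt G y) ≤
        (1 + (n + 1) * B) ^ d * (B * cs a s (gr G Q)) := by
      intro o
      have hdeg : (pderiv o Q).totalDegree ≤ d := totalDegree_pderiv_le o Q d hQ
      have h3 := ih (by omega) _ hdeg y hy
      have h4 := hA Q (by omega) o
      calc h * Psi (pderiv o Q) h (gpt G y)
          ≤ h * ((1 + (n + 1) * B) ^ d * (A * cs a s (gr G Q))) :=
            mul_le_mul_of_nonneg_left (h3.trans (mul_le_mul_of_nonneg_left h4 hp)) hh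
        _ = (1 + (n + 1) * B) ^ d * ((h * A) * cs a s (gr G Q)) := by ring
        _ ≤ (1 + (n + 1) * B) ^ d * (B * cs a s (gr G Q)) :=
            mul_le_mul_of_nonneg_left (mul_le_mul_of_nonneg_right hAB hN) hp
    have h5 := Psi_le_pderiv Q hh (gpt G y)
    rw [Finset.mul_sum] at h5
    have h6 : ∑ o : Option (Fin n), h * Psi (pderiv o Q) h (gpt G y) ≤
        (n + 1) * ((1 + (n + 1) * B) ^ d * (B * cs a s (gr G Q))) := by
      refine (Finset.sum_le_sum fun o _ => h2 o).trans ?_
      rw [Finset.sum_const, Finset.card_univ, Fintype.card_option, Fintype.card_fin,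
        nsmul_eq_mul]
      push_cast
      exact le_rfl
    have hone : (1 : ℝ) ≤ (1 + (n + 1) * B) ^ d := one_le_pow₀ (by linarith)
    calc Psi Q h (gpt G y) ≤ cs a s (gr G Q) +
          (n + 1) * ((1 + (n + 1) * B) ^ d * (B * cs a s (gr G Q))) := by linarith
      _ ≤ (1 + (n + 1) * B) ^ d * cs a s (gr G Q) +
          (n + 1) * ((1 + (n + 1) * B) ^ d * (B * cs a s (gr G Q))) := by nlinarith
      _ = (1 + (n + 1) * B) ^ (d + 1) * cs a s (gr G Q) := by ring

/-! ### Inequalities on a cube -/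

theorem psi_center_le (n E : ℕ) : ∃ K₁ : ℝ, 1 ≤ K₁ ∧ ∀ (R : MvPolynomial (Fin n) ℝ)
    (a : Fin n → ℝ) (s : ℝ), 0 ≤ s → R.totalDegree ≤ E →
      Psi R (s / 2) (fun i => a i + s / 2) ≤ K₁ * cs a s R := by
  obtain ⟨K₁, h1, hK⟩ := exists_Psi_le_sup (Fin n) E
  refine ⟨K₁, h1, ?_⟩
  intro R a s hs hR
  refine hK R (s / 2) _ _ hR (by linarith) ?_
  intro y hy
  refine le_cs hs R ?_
  intro i
  have h2 := hy i
  rw [abs_le] at h2
  constructor <;> linarith [h2.1, h2.2]

/-- Vanishing low coefficients are kept by a dilation. -/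
theorem coeff_shf_zero {σ : Type*} (T : MvPolynomial σ ℝ) (k : ℝ) (j : ℕ)
    (hT : ∀ α : σ →₀ ℕ, α.degree ≤ j → coeff α T = 0) (α : σ →₀ ℕ) (hα : α.degree ≤ j) :
    coeff α (shf T k (fun _ => 0)) = 0 := by
  classical
  unfold shf
  have h1 : aeval (fun i => C (0 : ℝ) + C k * X i) T
      = ∑ β ∈ T.support, C (coeff β T) * ∏ i ∈ β.support, (C k * X i : MvPolynomial σ ℝ) ^ β i := by
    rw [aeval_def, eval₂_eq]
    simp only [C_0, zero_add]
    rfl
  rw [h1, coeff_sum]
  refine Finset.sum_eq_zero ?_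
  intro β hβ
  have h2 : ∏ i ∈ β.support, (C k * X i : MvPolynomial σ ℝ) ^ β i =
      C (∏ i ∈ β.support, k ^ β i) * monomial β 1 := by
    have h3 : monomial β (1 : ℝ) = ∏ i ∈ β.support, (X i : MvPolynomial σ ℝ) ^ β i := by
      rw [monomial_eq, C_1, one_mul]
      rfl
    rw [h3, map_prod, ← Finset.prod_mul_distrib]
    refine Finset.prod_congr rfl ?_
    intro i _
    rw [mul_pow, map_pow]
  rw [h2, coeff_C_mul, coeff_C_mul, coeff_monomial]
  have hne : β ≠ α := by
    rintro rfl
    rw [mem_support_iff] at hβ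
    exact hβ (hT β hα)
  rw [if_neg hne, mul_zero, mul_zero]

theorem aeval_shift {n : ℕ} (a' : Fin n → ℝ) :
    (aeval (fun i => C (a' i) + C (1 : ℝ) * X i) :
      MvPolynomial (Fin n) ℝ →ₐ[ℝ] MvPolynomial (Fin n) ℝ) = bind₁ (fun i => X i + C (a' i)) := by
  refine algHom_ext fun i => ?_
  rw [aeval_X, bind₁_X_right, C_1, one_mul, add_comm]

theorem shf_gr {n : ℕ} (G : MvPolynomial (Fin n) ℝ) (a' : Fin n → ℝ)
    (P : MvPolynomial (Option (Fin n)) ℝ) :
    shf (gr G P) 1 a' = bind₁ (fun o : Option (Fin n) =>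
      o.elim (bind₁ (fun i => X i + C (a' i)) G) (fun i => X i + C (a' i))) P := by
  unfold shf gr
  rw [aeval_shift, bind₁_bind₁]
  have e4 : (fun o : Option (Fin n) => bind₁ (fun i => X i + C (a' i)) (o.elim G X)) =
      fun o : Option (Fin n) => o.elim (bind₁ (fun i => X i + C (a' i)) G)
        (fun i => X i + C (a' i)) := by
    funext o
    cases o with
    | none => rfl
    | some i =>
      show bind₁ _ (X i) = _
      rw [bind₁_X_right]
      rfl
  rw [e4]

theorem shf_C_mul {σ : Type*} (r h : ℝ) (Q : MvPolynomial σ ℝ) (x : σ → ℝ) :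
    shf (C r * Q) h x = C r * shf Q h x := by
  unfold shf
  rw [map_mul, algHom_C, algebraMap_eq]

/-- The coefficients of low degree of the restriction to the graph. -/
theorem coeff_low {n : ℕ} (G : MvPolynomial (Fin n) ℝ) (a' : Fin n → ℝ) (k r : ℝ) (j : ℕ)
    (P₀ : MvPolynomial (Option (Fin n)) ℝ)
    (hP : ∀ α : Fin n →₀ ℕ, α.degree ≤ j → coeff α (bind₁ (fun o : Option (Fin n) =>
      o.elim (bind₁ (fun i => X i + C (a' i)) G) (fun i => X i + C (a' i))) P₀) = 0)
    (α : Fin n →₀ ℕ) (hα : α.degree ≤ j) :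
    coeff α (shf (gr G (C r * P₀)) k a') = 0 := by
  have e1 : shf (gr G (C r * P₀)) k a' =
      shf (shf (gr G (C r * P₀)) 1 a') k (fun _ => 0) := by
    rw [← shf_scale, one_mul]
  rw [e1]
  refine coeff_shf_zero _ _ j ?_ α hα
  intro β hβ
  rw [gr_C_mul, shf_C_mul, shf_gr, coeff_C_mul, hP β hβ, mul_zero]

/-- Derivatives of a polynomial of bounded degree on a cube. -/
theorem markov {n : ℕ} (E : ℕ) (K₁ : ℝ) (hcen : ∀ (R : MvPolynomial (Fin n) ℝ)
    (a : Fin n → ℝ) (s : ℝ), 0 ≤ s → R.totalDegree ≤ E →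
      Psi R (s / 2) (fun i => a i + s / 2) ≤ K₁ * cs a s R) (a : Fin n → ℝ) {s : ℝ} (hs : 0 < s)
    (R : MvPolynomial (Fin n) ℝ) (hR : R.totalDegree ≤ E) (i : Fin n) {y : Fin n → ℝ}
    (hy : y ∈ cube a s) : |eval y (pderiv i R)| ≤ 2 * E * K₁ * (1 / s) * cs a s R := by
  have h3 : |eval y (pderiv i R)| ≤ Psi (pderiv i R) (s / 2) (fun i => a i + s / 2) := by
    refine abs_eval_le_Psi_of_near _ _ (by positivity) _ _ ?_
    intro k
    have := hy k
    rw [abs_le]
    constructor <;> linarith [this.1, this.2]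
  have h4 := Psi_pderiv_le R (s / 2) (by positivity) (fun i => a i + s / 2) i
  have h5 := hcen R a s hs.le hR
  have h6 : (R.totalDegree : ℝ) ≤ E := by exact_mod_cast hR
  have h7 : s / 2 * |eval y (pderiv i R)| ≤ E * (K₁ * cs a s R) := by
    calc s / 2 * |eval y (pderiv i R)|
        ≤ s / 2 * Psi (pderiv i R) (s / 2) (fun i => a i + s / 2) :=
          mul_le_mul_of_nonneg_left h3 (by positivity)
      _ ≤ R.totalDegree * Psi R (s / 2) (fun i => a i + s / 2) := h4
      _ ≤ E * (K₁ * cs a s R) := mul_le_mul h6 h5 (Psi_nonneg _ _ _) (by positivity)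
  have h8 : |eval y (pderiv i R)| = (2 / s) * (s / 2 * |eval y (pderiv i R)|) := by
    field_simp
  rw [h8]
  calc (2 / s) * (s / 2 * |eval y (pderiv i R)|)
      ≤ (2 / s) * (E * (K₁ * cs a s R)) := mul_le_mul_of_nonneg_left h7 (by positivity)
    _ = 2 * E * K₁ * (1 / s) * cs a s R := by ring

/-- The bound on a cube of three times the side. -/
theorem enlarge {n : ℕ} (E : ℕ) (K₁ : ℝ) (hcen : ∀ (R : MvPolynomial (Fin n) ℝ)
    (a : Fin n → ℝ) (s : ℝ), 0 ≤ s → R.totalDegree ≤ E →
      Psi R (s / 2) (fun i => a i + s / 2) ≤ K₁ * cs a s R) (a : Fin n → ℝ) {s : ℝ} (hs : 0 < s)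
    (R : MvPolynomial (Fin n) ℝ) (hR : R.totalDegree ≤ E) {y : Fin n → ℝ}
    (hy : ∀ i, a i - s ≤ y i ∧ y i ≤ a i + 2 * s) : |eval y R| ≤ 3 ^ E * K₁ * cs a s R := by
  have h1 : |eval y R| ≤ Psi R (s / 2 * 3) (fun i => a i + s / 2) := by
    refine abs_eval_le_Psi_of_near _ _ (by positivity) _ _ ?_
    intro i
    have := hy i
    rw [abs_le]
    constructor <;> linarith [this.1, this.2]
  refine h1.trans ((Psi_radius_le _ _ 3 (by norm_num) _).trans ?_)
  have h7 := hcen R a s hs.le hR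
  rw [mul_assoc]
  refine mul_le_mul ?_ h7 (Psi_nonneg _ _ _) (by positivity)
  exact pow_le_pow_right₀ (by norm_num) hR

end SML

open SML MvPolynomial in
/-- **Row SML.** -/
theorem sml_thm : SMLStmt := by
  intro n D j k₀ C₀ hch hC₀
  set E : ℕ := (k₀ + 1) * D with hE
  obtain ⟨K₁, hK₁, hcen⟩ := psi_center_le n E
  obtain ⟨CT, hCT0, hTay⟩ := tay_thm n E j
  set Cm : ℝ := 2 * E * K₁ with hCm
  set B : ℝ := C₀ * Cm + C₀ ^ 2 with hB
  set c : ℝ := (1 + (n + 1) * B) ^ D with hc
  set M₁ : ℝ := 3 ^ E * K₁ with hM₁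
  have hC₀0 : 0 ≤ C₀ := by linarith
  have hK₁0 : 0 ≤ K₁ := by linarith
  have hCm0 : 0 ≤ Cm := by positivity
  have hB0 : 0 ≤ B := by positivity
  have hc0 : 0 ≤ c := by positivity
  have hM₁0 : 0 ≤ M₁ := by positivity
  refine ⟨2 ^ D * (CT * M₁ + (n + 1) * c * B) + 1, ?_, ?_⟩
  · have : 0 ≤ 2 ^ D * (CT * M₁ + (n + 1) * c * B) := by positivity
    linarith
  intro K M G a a' hK hKM hG hbad haa
  have hK0 : 0 < K := by linarith
  have hKj : 0 < K ^ (j + 1) := by positivity
  have hM0 : 0 < M := lt_of_lt_of_le (by positivity) hKM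
  set s : ℝ := 1 / K with hs
  have hs0 : 0 < s := by positivity
  set h : ℝ := C₀ / M with hh
  have hh0 : 0 ≤ h := by positivity
  -- the derivatives
  set A : ℝ := Cm * K + C₀ * (M / K ^ (j + 1)) with hA
  have hnone : ∀ Q : MvPolynomial (Option (Fin n)) ℝ, Q.totalDegree ≤ D →
      cs a s (gr G (pderiv none Q)) ≤ M / K ^ (j + 1) * cs a s (gr G Q) := by
    intro Q hQ
    by_cases hQ0 : Q = 0
    · subst hQ0
      rw [map_zero]
      have e : gr G (0 : MvPolynomial (Option (Fin n)) ℝ) = 0 := by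
        unfold gr
        rw [map_zero]
      rw [e]
      refine cs_le _ (mul_nonneg (by positivity) (cs_nonneg _ _ _)) ?_
      intro y _
      rw [map_zero, abs_zero]
      exact mul_nonneg (by positivity) (cs_nonneg _ _ _)
    · have h1 := hbad Q hQ0 hQ
      rw [div_mul_eq_mul_div, div_lt_iff₀ hM0] at h1
      rw [div_mul_eq_mul_div, le_div_iff₀ hKj]
      linarith
  have hder : ∀ Q : MvPolynomial (Option (Fin n)) ℝ, Q.totalDegree ≤ D → ∀ o,
      cs a s (gr G (pderiv o Q)) ≤ A * cs a s (gr G Q) := by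
    intro Q hQ o
    have hN := cs_nonneg a s (gr G Q)
    have hMK : 0 ≤ M / K ^ (j + 1) := by positivity
    cases o with
    | none =>
      refine (hnone Q hQ).trans (mul_le_mul_of_nonneg_right ?_ hN)
      have : M / K ^ (j + 1) ≤ C₀ * (M / K ^ (j + 1)) := le_mul_of_one_le_left hMK hC₀
      have : 0 ≤ Cm * K := by positivity
      rw [hA]
      linarith
    | some i =>
      refine cs_le _ (by positivity) ?_
      intro y hy
      have h1 : eval y (gr G (pderiv (some i) Q)) = eval y (pderiv i (gr G Q)) -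
          eval y (gr G (pderiv none Q)) * eval y (pderiv i G) := by
        rw [pderiv_gr, map_add, map_mul]
        ring
      rw [h1]
      have hR : (gr G Q).totalDegree ≤ E := totalDegree_gr_le G k₀ D hG.deg Q hQ
      have h2 : |eval y (pderiv i (gr G Q))| ≤ Cm * K * cs a s (gr G Q) := by
        have h3 := markov E K₁ hcen a hs0 (gr G Q) hR i hy
        have e : 1 / s = K := by rw [hs, one_div_one_div]
        rw [e] at h3
        exact h3
      have h3 : |eval y (gr G (pderiv none Q))| ≤ M / K ^ (j + 1) * cs a s (gr G Q) :=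
        (le_cs hs0.le _ hy).trans (hnone Q hQ)
      have h4 : |eval y (pderiv i G)| ≤ C₀ := hG.slope y hy i
      calc |eval y (pderiv i (gr G Q)) - eval y (gr G (pderiv none Q)) * eval y (pderiv i G)|
          ≤ |eval y (pderiv i (gr G Q))| +
            |eval y (gr G (pderiv none Q)) * eval y (pderiv i G)| := abs_sub _ _
        _ ≤ Cm * K * cs a s (gr G Q) + M / K ^ (j + 1) * cs a s (gr G Q) * C₀ := by
            rw [abs_mul]
            exact add_le_add h2 (mul_le_mul h3 h4 (abs_nonneg _) (by positivity))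
        _ = A * cs a s (gr G Q) := by rw [hA]; ring
  have hhA : h * A ≤ B / K ^ (j + 1) := by
    have h1 : K / M ≤ 1 / K ^ (j + 1) := by
      rw [div_le_div_iff₀ hM0 hKj, one_mul]
      calc K * K ^ (j + 1) = K ^ (j + 2) := by ring
        _ ≤ M := hKM
    have e : h * A = C₀ * Cm * (K / M) + C₀ ^ 2 * (1 / K ^ (j + 1)) := by
      rw [hh, hA]
      field_simp
    rw [e, hB, add_div]
    refine add_le_add ?_ (le_of_eq ?_)
    · calc C₀ * Cm * (K / M) ≤ C₀ * Cm * (1 / K ^ (j + 1)) :=
            mul_le_mul_of_nonneg_left h1 (by positivity)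
        _ = C₀ * Cm / K ^ (j + 1) := by ring
    · ring
  have hKj1 : 1 ≤ K ^ (j + 1) := one_le_pow₀ hK
  have hhA' : h * A ≤ B := hhA.trans (div_le_self hB0 hKj1)
  have hrec := Psi_le_norm G a hs0.le hh0 hB0 hhA' D hder
  -- the polynomial
  obtain ⟨P₀, hP₀, hP₀D, hP₀c⟩ := jet_thm n D j hch G a'
  have hpos : 0 < cs a s (gr G P₀) := by
    refine lt_of_le_of_lt ?_ (hbad P₀ hP₀ hP₀D)
    exact mul_nonneg (by positivity) (cs_nonneg _ _ _)
  set r : ℝ := (cs a s (gr G P₀))⁻¹ with hr
  have hr0 : r ≠ 0 := inv_ne_zero hpos.ne'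
  set P : MvPolynomial (Option (Fin n)) ℝ := C r * P₀ with hP
  have hPne : P ≠ 0 := by
    rw [hP]
    refine mul_ne_zero ?_ hP₀
    rw [Ne, C_eq_zero]
    exact hr0
  have hPD : P.totalDegree ≤ D := by
    rw [hP]
    refine (totalDegree_mul _ _).trans ?_
    rw [totalDegree_C, zero_add]
    exact hP₀D
  have hgrP : gr G P = C r * gr G P₀ := by rw [hP, gr_C_mul]
  have hcs1 : cs a s (gr G P) = 1 := by
    rw [hgrP, cs_C_mul a hs0.le hr0, hr, abs_of_pos (inv_pos.2 hpos), inv_mul_cancel₀ hpos.ne']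
  refine ⟨P, hPne, hPD, hcs1, ?_⟩
  intro z hz hzN
  set y : Fin n → ℝ := fun i => z (some i) with hy
  have hyc : y ∈ cube a s := by
    intro i
    have h1 := hz i
    have h2 := haa i
    constructor
    · linarith [h1.1, h2.1]
    · linarith [h1.2, h2.2]
  -- smallness on the graph
  have hsmall : |eval (gpt G y) P| ≤ CT * M₁ / K ^ (j + 1) := by
    rw [← eval_gr]
    set R : MvPolynomial (Fin n) ℝ := shf (gr G P) (1 / K) a' with hR
    have hgrdeg : (gr G P).totalDegree ≤ E := totalDegree_gr_le G k₀ D hG.deg P hPD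
    have hRdeg : R.totalDegree ≤ E := (totalDegree_shf_le _ _ _).trans hgrdeg
    have hRc : ∀ α : Fin n →₀ ℕ, α.degree ≤ j → coeff α R = 0 :=
      fun α hα => coeff_low G a' (1 / K) r j P₀ hP₀c α hα
    have hRM : ∀ u : Fin n → ℝ, (∀ i, |u i| ≤ 1) → |eval u R| ≤ M₁ := by
      intro u hu
      rw [hR, eval_shf]
      have h1 := enlarge E K₁ hcen a hs0 (gr G P) hgrdeg (y := fun i => a' i + s * u i) (by
        intro i
        have h2 := haa i
        have h3 := hu i
        rw [abs_le] at h3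
        have h4 : 0 ≤ 1 / K ^ 2 := by positivity
        have h5 : s * u i ≤ s * 1 := mul_le_mul_of_nonneg_left h3.2 hs0.le
        have h6 : s * (-1) ≤ s * u i := mul_le_mul_of_nonneg_left h3.1 hs0.le
        constructor <;> linarith [h2.1, h2.2])
      rw [hcs1, mul_one] at h1
      exact h1
    have h8 := hTay R (1 / K) M₁ hRdeg hRc (by positivity) (by
      rw [div_le_one hK0]
      exact hK) hRM (fun i => K * (y i - a' i)) (by
        intro i
        have h1 := hz i
        rw [abs_of_nonneg (mul_nonneg hK0.le (by linarith [h1.1]))]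
        have h2 : y i - a' i ≤ 1 / K ^ 2 := by linarith [h1.2]
        calc K * (y i - a' i) ≤ K * (1 / K ^ 2) := mul_le_mul_of_nonneg_left h2 hK0.le
          _ = 1 / K := by field_simp)
    rw [hR, eval_shf] at h8
    have e5 : (fun i => a' i + 1 / K * (K * (y i - a' i))) = y := by
      funext i
      field_simp
      ring
    rw [e5] at h8
    refine h8.trans (le_of_eq ?_)
    rw [div_pow, one_pow]
    ring
  -- at the point of the graph
  have hg : Psi P h (gpt G y) ≤ (CT * M₁ + (n + 1) * c * B) / K ^ (j + 1) := by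
    have h1 := Psi_le_pderiv P hh0 (gpt G y)
    rw [Finset.mul_sum] at h1
    have h2 : ∀ o : Option (Fin n), h * Psi (pderiv o P) h (gpt G y) ≤
        c * (B / K ^ (j + 1)) := by
      intro o
      have h3 := hrec D le_rfl (pderiv o P) (totalDegree_pderiv_le o P D (by omega)) y hyc
      have h4 := hder P hPD o
      rw [hcs1, mul_one] at h4
      calc h * Psi (pderiv o P) h (gpt G y)
          ≤ h * (c * A) := mul_le_mul_of_nonneg_left
            (h3.trans (mul_le_mul_of_nonneg_left h4 hc0)) hh0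
        _ = c * (h * A) := by ring
        _ ≤ c * (B / K ^ (j + 1)) := mul_le_mul_of_nonneg_left hhA hc0
    have h5 : ∑ o : Option (Fin n), h * Psi (pderiv o P) h (gpt G y) ≤
        (n + 1) * (c * (B / K ^ (j + 1))) := by
      refine (Finset.sum_le_sum fun o _ => h2 o).trans ?_
      rw [Finset.sum_const, Finset.card_univ, Fintype.card_option, Fintype.card_fin,
        nsmul_eq_mul]
      push_cast
      exact le_rfl
    calc Psi P h (gpt G y) ≤ CT * M₁ / K ^ (j + 1) + (n + 1) * (c * (B / K ^ (j + 1))) := by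
          linarith
      _ = (CT * M₁ + (n + 1) * c * B) / K ^ (j + 1) := by ring
  have hnear : Psi P h z ≤ 2 ^ P.totalDegree * Psi P h (gpt G y) := by
    refine Psi_le_of_near P h hh0 (gpt G y) z ?_
    intro o
    cases o with
    | none => exact hzN
    | some i =>
      show |z (some i) - y i| ≤ h
      rw [hy]
      simpa using hh0
  have h9 : (2 : ℝ) ^ P.totalDegree ≤ 2 ^ D := pow_le_pow_right₀ (by norm_num) hPD
  calc Psi P h z ≤ 2 ^ P.totalDegree * Psi P h (gpt G y) := hnear
    _ ≤ 2 ^ D * ((CT * M₁ + (n + 1) * c * B) / K ^ (j + 1)) :=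
        mul_le_mul h9 hg (Psi_nonneg _ _ _) (by positivity)
    _ = 2 ^ D * (CT * M₁ + (n + 1) * c * B) / K ^ (j + 1) := by ring
    _ ≤ (2 ^ D * (CT * M₁ + (n + 1) * c * B) + 1) / K ^ (j + 1) := by
        refine (div_le_div_iff_of_pos_right hKj).2 ?_
        linarith

end Pool.KS3
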